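import Pool.Agent.Lib.MP_d691669a_an.Main

/-!
# Function spaces with the pointwise topology and weak topologies of normed spaces

For an infinite compact Hausdorff space `K`, the space `C(K)` with the topology of pointwise
convergence is not homeomorphic to any real normed space with its weak topology.
-/

set_option autoImplicit false

open Set Topology

namespace Pool.Agent.Results.MP_d691669a_an.NeverHomeomorphic

universe u v

/-- The topology of pointwise convergence on `C(K)`: the subspace topology from `ℝ^K`. -/
def pointwiseTopology (K : Type u) [TopologicalSpace K] : TopologicalSpace C(K, ℝ) :=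
  TopologicalSpace.induced (fun (f : C(K, ℝ)) (x : K) => f x) Pi.topologicalSpace

/-- The weak topology `σ(E, E^*)` of a real normed space `E`: the coarsest topology for which all
bounded linear functionals are continuous. -/
def weakTopology (E : Type v) [NormedAddCommGroup E] [NormedSpace ℝ E] : TopologicalSpace E :=
  TopologicalSpace.induced (fun (z : E) (y : E →L[ℝ] ℝ) => y z) Pi.topologicalSpace

theorem pointwiseTopology_eq (K : Type u) [TopologicalSpace K] :
    pointwiseTopology K = Pool.Agent.CpCw.ptTop K := by
  unfold pointwiseTopology Pool.Agent.CpCw.ptTop Pi.topologicalSpace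
  rw [induced_iInf]
  simp_rw [induced_compose]
  rfl

theorem weakTopology_eq (E : Type v) [NormedAddCommGroup E] [NormedSpace ℝ E] :
    weakTopology E = Pool.Agent.CpCw.wkTop E := by
  unfold weakTopology Pool.Agent.CpCw.wkTop Pi.topologicalSpace
  rw [induced_iInf]
  simp_rw [induced_compose]
  rfl

open Pool.Agent.CpCw in
/-- The case of a finite-dimensional space. -/
theorem not_homeo_finiteDimensional {K : Type u} [TopologicalSpace K] [CompactSpace K] [T2Space K]
    [Infinite K] {E : Type v} [NormedAddCommGroup E] [NormedSpace ℝ E]
    [FiniteDimensional ℝ E] :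
    ¬ ∃ e : C(K, ℝ) ≃ E, @Continuous C(K, ℝ) E (ptTop K) (wkTop E) e ∧
      @Continuous E C(K, ℝ) (wkTop E) (ptTop K) e.symm := by
  classical
  rintro ⟨e, he, hes⟩
  obtain ⟨A, δ, N, hδ, hA⟩ := locally_bounded e (ptwWeakCont_of_continuous e he)
  obtain ⟨t, ht⟩ := Infinite.exists_notMem_finset A
  have hw : @Continuous E E _ (wkTop E) id := by
    rw [continuous_iInf_rng]
    intro y
    rw [continuous_induced_rng]
    exact y.continuous
  have hev : Continuous fun z : E => (e.symm z) t := by
    have h1 : @Continuous C(K, ℝ) ℝ (ptTop K) _ fun f => f t :=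
      continuous_iff_le_induced.2 (iInf_le _ t)
    have h2 := @Continuous.comp E C(K, ℝ) ℝ (wkTop E) (ptTop K) _ _ _ h1 hes
    exact @Continuous.comp E E ℝ _ (wkTop E) _ _ _ h2 hw
  have : ProperSpace E := FiniteDimensional.proper_real E
  have hcomp : IsCompact (Metric.closedBall (e 0) N) := isCompact_closedBall _ _
  obtain ⟨R, hR⟩ := (hcomp.image hev).isBounded.subset_closedBall 0
  obtain ⟨g, hg⟩ := exists_interp (insert t A) (fun x => if x = t then |R| + 1 else 0)
  have h1 : ‖e g - e 0‖ ≤ N := by
    apply hA g
    intro a ha
    have hat : a ≠ t := fun h => ht (h ▸ ha)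
    rw [hg a (Finset.mem_insert_of_mem ha), if_neg hat]
    simpa using hδ
  have h2 : g t ∈ Metric.closedBall (0 : ℝ) R := by
    apply hR
    refine ⟨e g, by rwa [Metric.mem_closedBall, dist_eq_norm], ?_⟩
    simp
  rw [hg t (Finset.mem_insert_self _ _), if_pos rfl, Metric.mem_closedBall, Real.dist_eq, sub_zero,
    abs_of_pos (by positivity)] at h2
  linarith [le_abs_self R]

/-- For every infinite compact Hausdorff space `K` and every real normed space `E`, the space
`C(K)` with the topology of pointwise convergence and `E` with its weak topology are not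
homeomorphic. -/
theorem result (K : Type u) [TopologicalSpace K] [CompactSpace K] [T2Space K] [Infinite K]
    (E : Type v) [NormedAddCommGroup E] [NormedSpace ℝ E] :
    ¬ ∃ e : C(K, ℝ) ≃ E,
      @Continuous C(K, ℝ) E (pointwiseTopology K) (weakTopology E) e ∧
      @Continuous E C(K, ℝ) (weakTopology E) (pointwiseTopology K) e.symm := by
  rw [pointwiseTopology_eq, weakTopology_eq]
  by_cases hE : FiniteDimensional ℝ E
  · exact not_homeo_finiteDimensional
  · exact Pool.Agent.CpCw.not_homeo hE

end Pool.Agent.Results.MP_d691669a_an.NeverHomeomorphic
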